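import Pool.Agent.Lib.SDF4.Tensor
import Pool.Agent.Lib.SDF3.Main

/-!
The lower bound for semidefinite programs with exponent `u`, for all `3 ≤ u ≤ k`.
-/

set_option autoImplicit false

namespace Pool.Agent.Lib.SDF4

open Finset Function
open Pool.Agent.Lib.MP_678664_lc_h67 (Cons vert vert_inj rowGraph rowGraph_adj colSet colSet_inj
  card_colSet rowGraph_cliqueFree)
open Pool.Agent.Lib.SDF (av av_add av_sub av_neg av_mul_left av_mul_right av_zero av_const av_mono
  av_nonneg av_finset_sum av_comm abs_av_le av_congr sum_eq_card_mul_av degLE Junta av_pattern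
  CliqueSDP clique_factor core)

/-- The design with its test function of degree `u - 1`. -/
theorem exists_design (k u : ℕ) (hu : 3 ≤ u) (huk : u ≤ k) (ε : ℝ) (hε : 0 < ε) :
    ∃ (S : Type) (_ : Fintype S) (_ : DecidableEq S) (_ : Nonempty S)
      (ok : Fin k → Fin k → S → S → Prop) (W : (Fin k → S) → ℝ) (c : ℝ),
      1 ≤ c ∧ (∀ z, |W z| ≤ c) ∧
      (∀ v w s t, ok v w s t → ok w v t s) ∧
      (∀ (z : Fin k → S) (U : Finset (Fin k)), U.card = u → ¬ Cons ok U z) ∧
      (∑ z, W z ≤ (1 + ε) * Fintype.card (Fin k → S)) ∧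
      (∀ (T : Finset (Fin k)) (F : (Fin k → S) → ℝ), T.card < u →
        (∀ z z' : Fin k → S, (∀ v ∈ T, z v = z' v) → F z = F z') → (∀ z, 0 ≤ F z) →
        (0 ≤ ∑ z, W z * F z) ∧
        ((∀ z, Cons ok T z → F z = 1) → Fintype.card (Fin k → S) ≤ ∑ z, W z * F z)) ∧
      ∀ g ∈ degLE (Fin k) S (u - 1), 0 ≤ ∑ z, W z * g z ^ 2 := by
  classical
  -- the copies
  let 𝒰 : Type := {U : Finset (Fin k) // U.card = u}
  have hne : Nonempty 𝒰 := by
    obtain ⟨U, -, hU⟩ := Finset.exists_subset_card_eq (s := (Finset.univ : Finset (Fin k)))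
      (n := u) (by rw [Finset.card_univ, Fintype.card_fin]; exact huk)
    exact ⟨⟨U, hU⟩⟩
  let φ : 𝒰 → Fin u → Fin k := fun U i => U.1.orderEmbOfFin U.2 i
  have hφ : ∀ U, Injective (φ U) := fun U => (U.1.orderEmbOfFin U.2).injective
  have hφm : ∀ (U : 𝒰) i, φ U i ∈ U.1 := fun U i => Finset.orderEmbOfFin_mem U.1 U.2 i
  obtain ⟨N, hN⟩ : ∃ N, N = Fintype.card 𝒰 := ⟨_, rfl⟩
  have hN0 : N ≠ 0 := by rw [hN]; exact Fintype.card_ne_zero
  obtain ⟨ε0, hε0⟩ : ∃ ε0 : ℝ, ε0 = (1 + ε) ^ ((N : ℝ)⁻¹) - 1 := ⟨_, rfl⟩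
  have hε0pos : 0 < ε0 := by
    rw [hε0, sub_pos]
    exact Real.one_lt_rpow (by linarith) (by positivity)
  have hε0N : (1 + ε0) ^ N = 1 + ε := by
    rw [hε0, add_sub_cancel]
    exact Real.rpow_inv_natCast_pow (by linarith) hN0
  obtain ⟨S, hS1, hS2, hS3, ok, W, c, hc, hWc, hsymm, hno, hW1, hloc, hpsd⟩ :=
    Pool.Agent.Lib.SDF3.exists_design_top u hu ε0 hε0pos
  have hLoc : Loc ok W u := hloc
  have hX0 : (0 : ℝ) < Fintype.card (Fin u → S) := by exact_mod_cast Fintype.card_pos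
  have hWav : av W ≤ 1 + ε0 := by
    unfold av
    rw [div_le_iff₀ hX0]
    exact hW1
  have hWav0 : 0 ≤ av W := by
    have h1 := (hloc ∅ (fun _ => 1) (by rw [Finset.card_empty]; omega) (fun _ _ _ => rfl)
      (fun _ => zero_le_one)).1
    simp only [mul_one] at h1
    exact div_nonneg h1 (Nat.cast_nonneg _)
  have hK0 : (0 : ℝ) < Fintype.card (Fin k → 𝒰 → S) := by exact_mod_cast Fintype.card_pos
  -- the relation
  let okk : Fin k → Fin k → (𝒰 → S) → (𝒰 → S) → Prop := fun v w s t =>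
    ∀ (U : 𝒰) (i j : Fin u), φ U i = v → φ U j = w → ok i j (s U) (t U)
  have hcons : ∀ (T : Finset (Fin k)) (z : Fin k → 𝒰 → S),
      (∀ U ∈ (Finset.univ : Finset 𝒰), Cons ok (TT φ U T) (pr φ U z)) → Cons okk T z := by
    intro T z h v hv w hw hvw U i j hi hj
    have hij : i ≠ j := by
      rintro rfl
      exact hvw (hi.symm.trans hj)
    have h1 := h U (Finset.mem_univ U) i
      (Finset.mem_filter.2 ⟨Finset.mem_univ _, by rw [hi]; exact hv⟩) j
      (Finset.mem_filter.2 ⟨Finset.mem_univ _, by rw [hj]; exact hw⟩) hij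
    unfold pr at h1
    rw [hi, hj] at h1
    exact h1
  refine ⟨𝒰 → S, inferInstance, inferInstance, inferInstance, okk, WW φ W Finset.univ,
    c ^ N, one_le_pow₀ hc, fun z => ?_, ?_, ?_, ?_, ?_, ?_⟩
  · -- boundedness
    unfold WW
    rw [Finset.abs_prod]
    refine (Finset.prod_le_prod (fun _ _ => abs_nonneg _) fun U _ => hWc _).trans (le_of_eq ?_)
    rw [Finset.prod_const, Finset.card_univ, hN]
  · -- symmetry
    intro v w s t h U i j hi hj
    exact hsymm _ _ _ _ (h U j i hj hi)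
  · -- no clique
    intro z U hU h
    refine hno (pr φ ⟨U, hU⟩ z) Finset.univ (by rw [Finset.card_univ, Fintype.card_fin]) ?_
    intro i _ j _ hij
    exact h _ (hφm ⟨U, hU⟩ i) _ (hφm ⟨U, hU⟩ j) (fun he => hij (hφ _ he)) ⟨U, hU⟩ i j rfl rfl
  · -- the mean
    rw [sum_eq_card_mul_av, mul_comm]
    refine mul_le_mul_of_nonneg_right ?_ hK0.le
    have h1 := mean_WW hφ W (Finset.univ : Finset 𝒰)
    rw [Finset.card_univ, ← hN] at h1
    rw [show av (WW φ W Finset.univ) = av (fun z => WW φ W Finset.univ z) from rfl, h1, ← hε0N]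
    exact pow_le_pow_left₀ hWav0 hWav N
  · -- nonnegative functions of few coordinates
    intro T F hT hF hF0
    obtain ⟨h1, h2⟩ := loc_WW hφ W hLoc T hT Finset.univ F hF hF0
    rw [sum_eq_card_mul_av]
    refine ⟨mul_nonneg hK0.le h1, fun h3 => ?_⟩
    have h4 := h2 fun z hz => (h3 z (hcons T z hz)).ge
    have h5 := mul_le_mul_of_nonneg_left h4 hK0.le
    rw [mul_one] at h5
    exact h5
  · -- positivity
    intro g hg
    rw [sum_eq_card_mul_av]
    exact mul_nonneg hK0.le (psd_WW hφ W (u - 1) hpsd Finset.univ g hg)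

/-- The lower bound with free parameters. -/
theorem lower_param (k u : ℕ) (hu : 3 ≤ u) (huk : u ≤ k) (ε : ℝ) (hε : 0 < ε) (hε1 : ε ≤ 1) :
    ∃ c0 K1 δ : ℝ, 0 < c0 ∧ 0 < K1 ∧ 0 < δ ∧
      ∀ (n r : ℕ), Nonempty (CliqueSDP n k u ε r) →
        ∀ N s : ℕ, 0 < N → k * N ≤ n → K1 * (r + 1) < (1 + δ) ^ (2 * s) →
          c0 < (r + 1) * ((k * s : ℝ) / N) ^ (u - 1 + 1) := by
  classical
  obtain ⟨S, _, _, _, ok, W, c, hc, hWc, hsymm, hno, hW1, hloc, hpsd⟩ :=
    exists_design k u hu huk (ε / 2) (by positivity)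
  have hc0 : 0 < c := by linarith
  refine ⟨(ε / 2) ^ 2 / (320 * c ^ 2 * (1 + 1) ^ 2), 256 * c ^ 3 * (1 + 1) ^ 3 / (ε / 2) ^ 3,
    (ε / 2) / (16 * c * (1 + 1)), by positivity, by positivity, by positivity, ?_⟩
  rintro n r ⟨P⟩ N s hN hkn hs
  have : Nonempty (Fin N) := ⟨⟨0, hN⟩⟩
  obtain ⟨A, B, hA, hB, hAB⟩ := clique_factor P
  have hfree : ∀ x : Fin k → Fin N → S, (rowGraph hkn ok hsymm x).CliqueFree u := fun x =>
    rowGraph_cliqueFree hkn ok hsymm x u hu hno
  have hfin : ∀ (G : SimpleGraph (Fin n)) (T : Finset (Fin n)),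
      ∑ᶠ H ∈ Set.Iic G, P.wt T H = ∑ H, P.wt T H * if H ≤ G then 1 else 0 := by
    intro G T
    rw [finsum_mem_eq_finite_toFinset_sum _ (Set.toFinite _)]
    simp only [mul_ite, mul_one, mul_zero]
    rw [← Finset.sum_filter]
    refine Finset.sum_congr ?_ fun _ _ => rfl
    ext H
    simp
  have hval0 : ∀ (G : SimpleGraph (Fin n)) (T : Finset (Fin n)),
      0 ≤ ∑ᶠ H ∈ Set.Iic G, P.wt T H := by
    intro G T
    rw [hfin]
    exact Finset.sum_nonneg fun H _ => mul_nonneg (P.wt_nonneg T H) (by split_ifs <;> norm_num)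
  have hcard : (Fintype.card (Fin r ⊕ Unit) : ℝ) = r + 1 := by
    simp
  have hmain := core (κ := Fin k) (α := Fin N) (ι := Fin r ⊕ Unit) W
    (fun x y => 1 - ε - ∑ᶠ H ∈ Set.Iic (rowGraph hkn ok hsymm (fun v i => x (v, i))),
      P.wt (colSet hkn y) H)
    c 1 (ε / 2) (u - 1) hc zero_le_one (by positivity) (by linarith) hWc hpsd
    (fun x y => by
      have := hval0 (rowGraph hkn ok hsymm (fun v i => x (v, i))) (colSet hkn y)
      linarith)
    (fun y => by
      have h1 : ∀ x : Fin k × Fin N → S, W (fun v => x (v, y v)) * (1 - ε -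
          ∑ᶠ H ∈ Set.Iic (rowGraph hkn ok hsymm (fun v i => x (v, i))), P.wt (colSet hkn y) H)
          = W (fun v => x (v, y v)) * (1 - ε) - ∑ H, P.wt (colSet hkn y) H *
            (W (fun v => x (v, y v)) *
              if H ≤ rowGraph hkn ok hsymm (fun v i => x (v, i)) then 1 else 0) := by
        intro x
        rw [hfin, mul_sub, Finset.mul_sum]
        congr 1
        exact Finset.sum_congr rfl fun H _ => by ring
      rw [av_congr h1, av_sub, av_mul_right, av_pattern (fun z => W z) y, av_finset_sum]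
      have h2 : av (fun z => W z) ≤ 1 + ε / 2 := by
        unfold av
        rw [div_le_iff₀ (by exact_mod_cast Fintype.card_pos)]
        exact hW1
      have h2' : av (fun z => W z) * (1 - ε) ≤ (1 + ε / 2) * (1 - ε) :=
        mul_le_mul_of_nonneg_right h2 (by linarith)
      have h3 : ∀ H : SimpleGraph (Fin n), P.wt (colSet hkn y) H *
            (if H ≤ SimpleGraph.fromRel (fun a b => a ∈ colSet hkn y ∧ b ∈ colSet hkn y)
              then (1 : ℝ) else 0)
          ≤ av (fun x : Fin k × Fin N → S => P.wt (colSet hkn y) H *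
            (W (fun v => x (v, y v)) *
              if H ≤ rowGraph hkn ok hsymm (fun v i => x (v, i)) then 1 else 0)) := by
        intro H
        rw [av_mul_left]
        by_cases hH : H.support.ncard < u
        · obtain ⟨h4, h5⟩ := Pool.Agent.Lib.SDF3.corr_le hkn ok hsymm W u hloc H hH y
          refine mul_le_mul_of_nonneg_left ?_ (P.wt_nonneg _ _)
          split_ifs with hle
          · refine h5 ?_
            intro a b hab
            have := hle hab
            rw [SimpleGraph.fromRel_adj] at this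
            rcases this.2 with h6 | h6
            · exact h6
            · exact h6.symm
          · exact h4
        · rw [P.wt_small _ H (not_lt.1 hH), zero_mul, zero_mul]
      have h6 := Finset.sum_le_sum fun H (_ : H ∈ Finset.univ) => h3 H
      have h7 := P.complete (colSet hkn y) (card_colSet hkn y)
        (SimpleGraph.fromRel (fun a b => a ∈ colSet hkn y ∧ b ∈ colSet hkn y)) (by
          intro a ha b hb hab
          rw [SimpleGraph.fromRel_adj]
          exact ⟨hab, Or.inl ⟨ha, hb⟩⟩)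
      rw [P.point_val _ (card_colSet hkn y), hfin] at h7
      nlinarith)
    (fun x => A (rowGraph hkn ok hsymm (fun v i => x (v, i)))) (fun y => B (colSet hkn y))
    (fun x => hA _ (hfree _)) (fun y => hB _ (card_colSet hkn y))
    (fun x y => hAB _ (hfree _) _ (card_colSet hkn y)) s (by rw [hcard]; exact hs)
  rw [hcard] at hmain
  simpa using hmain

/-- The lower bound with exponent `u`. -/
theorem sdp_lower (k u : ℕ) (hu : 3 ≤ u) (huk : u ≤ k) (ε : ℝ) (hε : 0 < ε) :
    ∃ c : ℝ, 0 < c ∧ ∀ n r : ℕ, 2 ≤ n → Nonempty (CliqueSDP n k u ε r) →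
      c * (n / Real.log n) ^ u ≤ r + 1 := by
  obtain ⟨c0, K1, δ, hc0, hK1, hδ, h⟩ := lower_param k u hu huk (min ε 1)
    (lt_min hε one_pos) (min_le_right _ _)
  have he : u - 1 + 1 = u := by omega
  rw [he] at h
  obtain ⟨c, hc, hc2⟩ := Pool.Agent.Lib.SDF.asym k u (by omega) (by omega) c0 K1 δ hc0 hK1 hδ
  refine ⟨c, hc, fun n r hn hF => ?_⟩
  obtain ⟨F⟩ := hF
  exact hc2 n r hn (h n r (Pool.Agent.Lib.SDF.clique_sdp_mono (min_le_left _ _) F))

theorem main :
    ∀ k u : ℕ, 3 ≤ u → u ≤ k →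
      (∀ ε : ℝ, 0 < ε → ∃ c : ℝ, 0 < c ∧ ∀ n r : ℕ, 2 ≤ n →
        Nonempty (CliqueSDP n k u ε r) → c * (n / Real.log n) ^ u ≤ r + 1) ∧
      ∀ n : ℕ, ∃ P : CliqueSDP n k u (1 - 2 / u) (n.choose u), P.IsLinear :=
  fun k u hu huk => ⟨fun ε hε => sdp_lower k u hu huk ε hε,
    (Pool.Agent.Lib.SDF2.main k u hu huk).2.2⟩

end Pool.Agent.Lib.SDF4
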