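import Pool.Agent.Lib.SDF3.Defs

/-!
A diagonal quadratic form which is nonnegative on a subspace is there a sum of squares of linear
functionals.
-/

set_option autoImplicit false

namespace Pool.Agent.Lib.SDF4

open Finset Function

open scoped MatrixOrder in
theorem exists_sos {X : Type*} [Fintype X] [DecidableEq X] (V : Submodule ℝ (X → ℝ)) (W : X → ℝ)
    (h : ∀ g ∈ V, 0 ≤ ∑ x, W x * g x ^ 2) :
    ∃ l : X → (X → ℝ) →ₗ[ℝ] ℝ, ∀ g ∈ V, ∑ x, W x * g x ^ 2 = ∑ j, (l j g) ^ 2 := by
  obtain ⟨q, hq⟩ := LinearMap.exists_leftInverse_of_injective V.subtype V.ker_subtype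
  let π : (X → ℝ) →ₗ[ℝ] (X → ℝ) := V.subtype ∘ₗ q
  have hπV : ∀ g, π g ∈ V := fun g => (q g).2
  have hπ : ∀ g ∈ V, π g = g := by
    intro g hg
    have h1 : q (V.subtype ⟨g, hg⟩) = ⟨g, hg⟩ := by
      have := LinearMap.congr_fun hq ⟨g, hg⟩
      simpa using this
    show V.subtype (q g) = g
    have h2 : V.subtype (⟨g, hg⟩ : V) = g := rfl
    rw [h2] at h1
    rw [h1]
    rfl
  let M : Matrix X X ℝ := fun a b =>
    ∑ t, W t * (π (Pi.single a 1) t * π (Pi.single b 1) t)
  have hexp : ∀ (c : X → ℝ) (t : X), π c t = ∑ a, c a * π (Pi.single a 1) t := by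
    intro c t
    have h1 : c = ∑ a, c a • (Pi.single a (1 : ℝ) : X → ℝ) := by
      funext s
      simp [Finset.sum_apply, Pi.single_apply]
    conv_lhs => rw [h1]
    rw [map_sum, Finset.sum_apply]
    exact Finset.sum_congr rfl fun a _ => by rw [map_smul, Pi.smul_apply, smul_eq_mul]
  have hform : ∀ c : X → ℝ, c ⬝ᵥ (M.mulVec c) = ∑ t, W t * (π c t) ^ 2 := by
    intro c
    have h1 : c ⬝ᵥ (M.mulVec c)
        = ∑ a, ∑ b, ∑ t, W t * ((c a * π (Pi.single a 1) t) * (c b * π (Pi.single b 1) t)) := by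
      simp only [dotProduct, Matrix.mulVec, Finset.mul_sum]
      refine Finset.sum_congr rfl fun a _ => Finset.sum_congr rfl fun b _ => ?_
      show c a * ((∑ t, W t * (π (Pi.single a 1) t * π (Pi.single b 1) t)) * c b) = _
      rw [Finset.sum_mul, Finset.mul_sum]
      exact Finset.sum_congr rfl fun t _ => by ring
    rw [h1]
    have h2 : ∀ t, W t * (π c t) ^ 2
        = ∑ a, ∑ b, W t * ((c a * π (Pi.single a 1) t) * (c b * π (Pi.single b 1) t)) := by
      intro t
      rw [hexp c t, pow_two, Finset.sum_mul_sum, Finset.mul_sum]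
      exact Finset.sum_congr rfl fun a _ => by rw [Finset.mul_sum]
    rw [Finset.sum_congr rfl fun t _ => h2 t]
    rw [Finset.sum_comm (s := (Finset.univ : Finset X))]
    have h3 : ∀ a : X, ∑ b, ∑ t, W t * ((c a * π (Pi.single a 1) t) * (c b * π (Pi.single b 1) t))
        = ∑ t, ∑ b, W t * ((c a * π (Pi.single a 1) t) * (c b * π (Pi.single b 1) t)) :=
      fun a => Finset.sum_comm
    rw [Finset.sum_comm]
    rw [Finset.sum_congr rfl fun a _ => h3 a]
    exact Finset.sum_comm
  have hM : M.PosSemidef := by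
    refine Matrix.PosSemidef.of_dotProduct_mulVec_nonneg ?_ fun c => ?_
    · ext a b
      simp only [Matrix.conjTranspose_apply, star_trivial]
      exact Finset.sum_congr rfl fun t _ => by ring
    · rw [star_trivial, hform]
      exact h _ (hπV c)
  obtain ⟨C, hC⟩ := CStarAlgebra.nonneg_iff_eq_star_mul_self.mp hM.nonneg
  rw [Matrix.star_eq_conjTranspose] at hC
  refine ⟨fun j => (LinearMap.proj j) ∘ₗ C.mulVecLin, fun g hg => ?_⟩
  have h1 := hform g
  rw [hπ g hg] at h1
  rw [← h1, hC]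
  have h2 : g ⬝ᵥ ((C.conjTranspose * C).mulVec g) = C.mulVec g ⬝ᵥ C.mulVec g := by
    rw [← Matrix.mulVec_mulVec, Matrix.dotProduct_mulVec, Matrix.conjTranspose_eq_transpose_of_trivial,
      Matrix.vecMul_transpose]
  rw [h2]
  simp only [dotProduct]
  exact Finset.sum_congr rfl fun j _ => by
    simp only [LinearMap.comp_apply, LinearMap.proj_apply, Matrix.mulVecLin_apply]
    ring

end Pool.Agent.Lib.SDF4
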