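import Pool.Agent.Lib.SDF4.Sos
import Pool.Agent.Lib.SDF3.Top

/-!
The tensor product of the test functions of the `u`-subsets of the `k` vertices.
-/

set_option autoImplicit false

namespace Pool.Agent.Lib.SDF4

open Finset Function
open Pool.Agent.Lib.MP_678664_lc_h67 (Cons)
open Pool.Agent.Lib.SDF (av av_add av_sub av_neg av_mul_left av_mul_right av_zero av_const av_mono
  av_nonneg av_finset_sum av_comm abs_av_le av_congr sum_eq_card_mul_av degLE Junta)

section override
variable {κ I 𝒰 S : Type} [Fintype κ] [DecidableEq κ] [Fintype I] [DecidableEq I] [Fintype 𝒰]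
  [DecidableEq 𝒰] [Fintype S] [Nonempty S]

/-- Replace the entries `z (φ U i) U` by `x i`. -/
noncomputable def ov (φ : 𝒰 → I → κ) (U : 𝒰) (z : κ → 𝒰 → S) (x : I → S) : κ → 𝒰 → S :=
  fun v U' => Function.extend (fun i => (φ U i, U)) x (fun p => z p.1 p.2) (v, U')

/-- The entries `z (φ U i) U`. -/
def pr (φ : 𝒰 → I → κ) (U : 𝒰) (z : κ → 𝒰 → S) : I → S := fun i => z (φ U i) U

variable {φ : 𝒰 → I → κ} (hφ : ∀ U, Injective (φ U))
include hφ

omit [Fintype κ] [DecidableEq κ] [Fintype I] [DecidableEq I] [Fintype 𝒰] [DecidableEq 𝒰]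
  [Fintype S] [Nonempty S] in
theorem inj_aux (U : 𝒰) : Injective (fun i => (φ U i, U) : I → κ × 𝒰) := by
  intro i j h
  exact hφ U (Prod.mk.inj h).1

omit [Fintype κ] [DecidableEq κ] [Fintype I] [DecidableEq I] [Fintype 𝒰] [DecidableEq 𝒰]
  [Fintype S] [Nonempty S] in
theorem ov_self (U : 𝒰) (z : κ → 𝒰 → S) (x : I → S) (i : I) : ov φ U z x (φ U i) U = x i := by
  unfold ov
  exact (inj_aux hφ U).extend_apply x _ i

omit [Fintype κ] [DecidableEq κ] [Fintype I] [DecidableEq I] [Fintype 𝒰] [DecidableEq 𝒰]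
  [Fintype S] [Nonempty S] hφ in
theorem ov_other {U U' : 𝒰} (h : U' ≠ U) (z : κ → 𝒰 → S) (x : I → S) (v : κ) :
    ov φ U z x v U' = z v U' := by
  unfold ov
  rw [Function.extend_apply']
  rintro ⟨i, hi⟩
  exact h (Prod.mk.inj hi).2.symm

omit [Fintype κ] [DecidableEq κ] [Fintype I] [DecidableEq I] [Fintype 𝒰] [DecidableEq 𝒰]
  [Fintype S] [Nonempty S] hφ in
theorem ov_notin {U : 𝒰} {v : κ} (h : ∀ i, φ U i ≠ v) (z : κ → 𝒰 → S) (x : I → S) :
    ov φ U z x v U = z v U := by
  unfold ov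
  rw [Function.extend_apply']
  rintro ⟨i, hi⟩
  exact h i (Prod.mk.inj hi).1

omit [Fintype κ] [DecidableEq κ] [Fintype I] [DecidableEq I] [Fintype 𝒰] [DecidableEq 𝒰]
  [Fintype S] [Nonempty S] in
theorem pr_ov_self (U : 𝒰) (z : κ → 𝒰 → S) (x : I → S) : pr φ U (ov φ U z x) = x := by
  funext i
  exact ov_self hφ U z x i

omit [Fintype κ] [DecidableEq κ] [Fintype I] [DecidableEq I] [Fintype 𝒰] [DecidableEq 𝒰]
  [Fintype S] [Nonempty S] hφ in
theorem pr_ov_other {U U' : 𝒰} (h : U' ≠ U) (z : κ → 𝒰 → S) (x : I → S) :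
    pr φ U' (ov φ U z x) = pr φ U' z := by
  funext i
  exact ov_other h z x _

omit [Fintype κ] [DecidableEq κ] [Fintype I] [DecidableEq I] [Fintype 𝒰] [DecidableEq 𝒰]
  [Fintype S] [Nonempty S] in
theorem ov_invol (U : 𝒰) (z : κ → 𝒰 → S) (x : I → S) :
    ov φ U (ov φ U z x) (pr φ U z) = z := by
  funext v U'
  by_cases hU : U' = U
  · subst hU
    by_cases hv : ∃ i, φ U' i = v
    · obtain ⟨i, rfl⟩ := hv
      rw [ov_self hφ]
      rfl
    · push Not at hv
      rw [ov_notin hv, ov_notin hv]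
  · rw [ov_other hU, ov_other hU]

theorem av_ov (U : 𝒰) (G : (κ → 𝒰 → S) → ℝ) :
    av (fun z => av fun x : I → S => G (ov φ U z x)) = av G := by
  have hX : (Fintype.card (I → S) : ℝ) ≠ 0 := by exact_mod_cast Fintype.card_ne_zero
  have hinv : Function.Involutive (fun p : (κ → 𝒰 → S) × (I → S) =>
      (ov φ U p.1 p.2, pr φ U p.1)) := by
    rintro ⟨z, x⟩
    exact Prod.ext (ov_invol hφ U z x) (pr_ov_self hφ U z x)
  have h1 : ∑ z : κ → 𝒰 → S, ∑ x : I → S, G (ov φ U z x)
      = ∑ z : κ → 𝒰 → S, ∑ _x : I → S, G z := by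
    have h2 := Equiv.sum_comp (hinv.toPerm) (fun p : (κ → 𝒰 → S) × (I → S) => G p.1)
    rw [← Finset.univ_product_univ, Finset.sum_product, Finset.sum_product] at h2
    exact h2
  simp only [av]
  rw [← Finset.sum_div, h1]
  simp only [Finset.sum_const, Finset.card_univ, nsmul_eq_mul]
  rw [← Finset.mul_sum]
  field_simp

omit [Fintype κ] [DecidableEq κ] [Fintype I] [DecidableEq I] [Fintype 𝒰] [DecidableEq 𝒰]
  [Fintype S] [Nonempty S] in
/-- If `z` and `z'` agree at `v`, so do the modified functions. -/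
theorem ov_congr_left (U : 𝒰) {z z' : κ → 𝒰 → S} (x : I → S) {v : κ} (h : z v = z' v) :
    ov φ U z x v = ov φ U z' x v := by
  funext U'
  by_cases hU : U' = U
  · subst hU
    by_cases hv : ∃ i, φ U' i = v
    · obtain ⟨i, rfl⟩ := hv
      rw [ov_self hφ, ov_self hφ]
    · push Not at hv
      rw [ov_notin hv, ov_notin hv, h]
  · rw [ov_other hU, ov_other hU, h]

omit [Fintype κ] [DecidableEq κ] [Fintype I] [DecidableEq I] [Fintype 𝒰] [DecidableEq 𝒰]
  [Fintype S] [Nonempty S] in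
/-- If `x` and `x'` agree at the indices of `v`, the modified functions agree at `v`. -/
theorem ov_congr_right (U : 𝒰) (z : κ → 𝒰 → S) {x x' : I → S} {v : κ}
    (h : ∀ i, φ U i = v → x i = x' i) : ov φ U z x v = ov φ U z x' v := by
  funext U'
  by_cases hU : U' = U
  · subst hU
    by_cases hv : ∃ i, φ U' i = v
    · obtain ⟨i, rfl⟩ := hv
      rw [ov_self hφ, ov_self hφ]
      exact h i rfl
    · push Not at hv
      rw [ov_notin hv, ov_notin hv]
  · rw [ov_other hU, ov_other hU]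

end override

section tensor
variable {κ I 𝒰 S : Type} [Fintype κ] [DecidableEq κ] [Fintype I] [DecidableEq I] [Fintype 𝒰]
  [DecidableEq 𝒰] [Fintype S] [DecidableEq S] [Nonempty S]

/-- The product of the test functions of the copies `U ∈ 𝒱`. -/
noncomputable def WW (φ : 𝒰 → I → κ) (W : (I → S) → ℝ) (𝒱 : Finset 𝒰) (z : κ → 𝒰 → S) : ℝ :=
  ∏ U ∈ 𝒱, W (pr φ U z)

variable {φ : 𝒰 → I → κ} (hφ : ∀ U, Injective (φ U)) (W : (I → S) → ℝ)
include hφ

omit [Fintype κ] [DecidableEq κ] [Fintype I] [DecidableEq I] [Fintype 𝒰]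
  [Fintype S] [DecidableEq S] [Nonempty S] in
theorem WW_insert {U : 𝒰} {𝒱 : Finset 𝒰} (hU : U ∉ 𝒱) (z : κ → 𝒰 → S) (x : I → S) :
    WW φ W (insert U 𝒱) (ov φ U z x) = W x * WW φ W 𝒱 z := by
  unfold WW
  rw [Finset.prod_insert hU, pr_ov_self hφ]
  congr 1
  refine Finset.prod_congr rfl fun U' hU' => ?_
  rw [pr_ov_other]
  rintro rfl
  exact hU hU'

omit [DecidableEq S] in
/-- Peeling off one copy. -/
theorem av_WW_insert {U : 𝒰} {𝒱 : Finset 𝒰} (hU : U ∉ 𝒱) (F : (κ → 𝒰 → S) → ℝ) :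
    av (fun z => WW φ W (insert U 𝒱) z * F z)
      = av fun z => WW φ W 𝒱 z * av fun x : I → S => W x * F (ov φ U z x) := by
  rw [← av_ov hφ U]
  refine av_congr fun z => ?_
  rw [← av_mul_left]
  refine av_congr fun x => ?_
  rw [WW_insert hφ W hU]
  ring

omit [Fintype κ] [Fintype 𝒰] [DecidableEq 𝒰] [Fintype S] [DecidableEq S] [Nonempty S]
  [DecidableEq I] in
/-- Restricting a function of few coordinates to a copy. -/
theorem restrict_mem (d : ℕ) (U : 𝒰) (z : κ → 𝒰 → S) (g : (κ → 𝒰 → S) → ℝ)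
    (hg : g ∈ degLE κ (𝒰 → S) d) : (fun x : I → S => g (ov φ U z x)) ∈ degLE I S d := by
  unfold degLE at hg ⊢
  induction hg using Submodule.span_induction with
  | mem g hg =>
    obtain ⟨Q, hQ, hQg⟩ := hg
    refine Submodule.subset_span ⟨Finset.univ.filter fun i => φ U i ∈ Q, ?_, fun x x' h => ?_⟩
    · refine le_trans ?_ hQ
      refine Finset.card_le_card_of_injOn (φ U) (fun i hi => ?_) (hφ U).injOn
      exact (Finset.mem_filter.1 hi).2
    · refine hQg _ _ fun v hv => ?_
      refine ov_congr_right hφ U z fun i hi => h i ?_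
      exact Finset.mem_filter.2 ⟨Finset.mem_univ _, by rw [hi]; exact hv⟩
  | zero => exact Submodule.zero_mem _
  | add g g' _ _ hg hg' => exact Submodule.add_mem _ hg hg'
  | smul c g _ hg => exact Submodule.smul_mem _ c hg

omit [Fintype κ] [DecidableEq κ] [Fintype I] [DecidableEq I] [Fintype 𝒰] [DecidableEq 𝒰]
  [Fintype S] [DecidableEq S] [Nonempty S] in
/-- Applying a linear functional to the restrictions. -/
theorem functional_mem (d : ℕ) (U : 𝒰) (l : ((I → S) → ℝ) →ₗ[ℝ] ℝ) (g : (κ → 𝒰 → S) → ℝ)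
    (hg : g ∈ degLE κ (𝒰 → S) d) : (fun z => l fun x => g (ov φ U z x)) ∈ degLE κ (𝒰 → S) d := by
  unfold degLE at hg ⊢
  induction hg using Submodule.span_induction with
  | mem g hg =>
    obtain ⟨Q, hQ, hQg⟩ := hg
    refine Submodule.subset_span ⟨Q, hQ, fun z z' h => ?_⟩
    show l (fun x => g (ov φ U z x)) = l (fun x => g (ov φ U z' x))
    congr 1
    funext x
    exact hQg _ _ fun v hv => ov_congr_left hφ U x (h v hv)
  | zero =>
    have : (fun z : κ → 𝒰 → S => l fun x : I → S => (0 : (κ → 𝒰 → S) → ℝ) (ov φ U z x)) = 0 := by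
      funext z
      exact map_zero l
    rw [this]
    exact Submodule.zero_mem _
  | add g g' _ _ hg hg' =>
    have : (fun z : κ → 𝒰 → S => l fun x : I → S => (g + g') (ov φ U z x))
        = (fun z => l fun x => g (ov φ U z x)) + fun z => l fun x => g' (ov φ U z x) := by
      funext z
      exact map_add l (fun x => g (ov φ U z x)) (fun x => g' (ov φ U z x))
    rw [this]
    exact Submodule.add_mem _ hg hg'
  | smul c g _ hg =>
    have : (fun z : κ → 𝒰 → S => l fun x : I → S => (c • g) (ov φ U z x))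
        = c • fun z => l fun x => g (ov φ U z x) := by
      funext z
      exact map_smul l c (fun x => g (ov φ U z x))
    rw [this]
    exact Submodule.smul_mem _ c hg

/-- The product of the test functions is positive semidefinite. -/
theorem psd_WW (d : ℕ) (hW : ∀ g ∈ degLE I S d, 0 ≤ ∑ x, W x * g x ^ 2) (𝒱 : Finset 𝒰) :
    ∀ g ∈ degLE κ (𝒰 → S) d, 0 ≤ av fun z => WW φ W 𝒱 z * g z ^ 2 := by
  classical
  obtain ⟨l, hl⟩ := exists_sos (degLE I S d) W hW
  induction 𝒱 using Finset.induction_on with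
  | empty =>
    intro g _
    refine av_nonneg fun z => ?_
    unfold WW
    rw [Finset.prod_empty, one_mul]
    positivity
  | insert U 𝒱 hU ih =>
    intro g hg
    rw [av_WW_insert hφ W hU (fun z => g z ^ 2)]
    have h1 : ∀ z : κ → 𝒰 → S, WW φ W 𝒱 z * av (fun x : I → S => W x * g (ov φ U z x) ^ 2)
        = ∑ j, 1 / (Fintype.card (I → S) : ℝ) *
          (WW φ W 𝒱 z * (l j fun x => g (ov φ U z x)) ^ 2) := by
      intro z
      have h2 := hl _ (restrict_mem hφ d U z g hg)
      unfold av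
      rw [h2, ← Finset.mul_sum, ← Finset.mul_sum]
      ring
    rw [av_congr h1, av_finset_sum]
    refine Finset.sum_nonneg fun j _ => ?_
    rw [av_mul_left]
    refine mul_nonneg (by positivity) ?_
    exact ih _ (functional_mem hφ d U (l j) g hg)

/-- The mean of the product. -/
theorem mean_WW (𝒱 : Finset 𝒰) : av (fun z => WW φ W 𝒱 z) = (av W) ^ 𝒱.card := by
  classical
  induction 𝒱 using Finset.induction_on with
  | empty =>
    unfold WW
    simp only [Finset.prod_empty, Finset.card_empty, pow_zero]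
    exact av_const 1
  | insert U 𝒱 hU ih =>
    have h1 := av_WW_insert hφ W hU (fun _ => (1 : ℝ))
    simp only [mul_one] at h1
    rw [h1]
    have h2 : av (fun z => WW φ W 𝒱 z * av fun x : I → S => W x)
        = av (fun z => WW φ W 𝒱 z) * av W := av_mul_right _ _
    rw [h2, ih, Finset.card_insert_of_notMem hU, pow_succ]

/-- The hypothesis on nonnegative functions of less than `u` coordinates. -/
def Loc (ok : I → I → S → S → Prop) (W : (I → S) → ℝ) (u : ℕ) : Prop :=
  ∀ (T : Finset I) (F : (I → S) → ℝ), T.card < u →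
    (∀ z z' : I → S, (∀ v ∈ T, z v = z' v) → F z = F z') → (∀ z, 0 ≤ F z) →
    (0 ≤ ∑ z, W z * F z) ∧
    ((∀ z, Cons ok T z → F z = 1) → Fintype.card (I → S) ≤ ∑ z, W z * F z)

omit [Fintype κ] [DecidableEq κ] [Fintype 𝒰] [DecidableEq 𝒰] [DecidableEq S] hφ in
theorem Loc.one_le {ok : I → I → S → S → Prop} {u : ℕ} (h : Loc ok W u) (T : Finset I)
    (F : (I → S) → ℝ) (hT : T.card < u)
    (hF : ∀ z z' : I → S, (∀ v ∈ T, z v = z' v) → F z = F z') (hF0 : ∀ z, 0 ≤ F z)
    (h1 : ∀ z, Cons ok T z → 1 ≤ F z) : 1 ≤ av fun z => W z * F z := by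
  have h2 := (h T (fun z => min (F z) 1) hT (fun z z' hz => by simp only [hF z z' hz])
    (fun z => le_min (hF0 z) zero_le_one)).2 (fun z hz => min_eq_right (h1 z hz))
  have h3 := (h T (fun z => F z - min (F z) 1) hT (fun z z' hz => by simp only [hF z z' hz])
    (fun z => sub_nonneg.2 (min_le_left _ _))).1
  have h4 : ∑ z, W z * F z = ∑ z, W z * min (F z) 1 + ∑ z, W z * (F z - min (F z) 1) := by
    rw [← Finset.sum_add_distrib]
    exact Finset.sum_congr rfl fun z _ => by ring
  unfold av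
  rw [le_div_iff₀ (by exact_mod_cast Fintype.card_pos), one_mul, h4]
  linarith

/-- The coordinates of the copy `U` in `T`. -/
def TT (φ : 𝒰 → I → κ) (U : 𝒰) (T : Finset κ) : Finset I := Finset.univ.filter fun i => φ U i ∈ T

omit [Fintype κ] [Fintype 𝒰] [DecidableEq 𝒰] [DecidableEq I] in
theorem card_TT (U : 𝒰) (T : Finset κ) : (TT φ U T).card ≤ T.card := by
  refine Finset.card_le_card_of_injOn (φ U) (fun i hi => ?_) (hφ U).injOn
  exact (Finset.mem_filter.1 hi).2

/-- The product of the test functions against nonnegative functions of `T`. -/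
theorem loc_WW {ok : I → I → S → S → Prop} {u : ℕ} (h : Loc ok W u) (T : Finset κ)
    (hT : T.card < u) (𝒱 : Finset 𝒰) :
    ∀ F : (κ → 𝒰 → S) → ℝ, (∀ z z' : κ → 𝒰 → S, (∀ v ∈ T, z v = z' v) → F z = F z') →
      (∀ z, 0 ≤ F z) → (0 ≤ av fun z => WW φ W 𝒱 z * F z) ∧
      ((∀ z, (∀ U ∈ 𝒱, Cons ok (TT φ U T) (pr φ U z)) → 1 ≤ F z) →
        1 ≤ av fun z => WW φ W 𝒱 z * F z) := by
  classical
  induction 𝒱 using Finset.induction_on with
  | empty =>
    intro F _ hF0
    have hWW : ∀ z : κ → 𝒰 → S, WW φ W ∅ z = 1 := fun z => by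
      unfold WW
      exact Finset.prod_empty
    refine ⟨av_nonneg fun z => ?_, fun h1 => ?_⟩
    · rw [hWW, one_mul]
      exact hF0 z
    · refine le_trans (le_of_eq (av_const (X := κ → 𝒰 → S) (1 : ℝ)).symm) (av_mono fun z => ?_)
      rw [hWW, one_mul]
      exact h1 z fun U hU => absurd hU (Finset.notMem_empty U)
  | insert U 𝒱 hU ih =>
    intro F hF hF0
    have hTU : (TT φ U T).card < u := lt_of_le_of_lt (card_TT hφ U T) hT
    -- the restriction to the copy depends on few coordinates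
    have hres : ∀ (z : κ → 𝒰 → S) (x x' : I → S), (∀ i ∈ TT φ U T, x i = x' i) →
        F (ov φ U z x) = F (ov φ U z x') := by
      intro z x x' hx
      refine hF _ _ fun v hv => ov_congr_right hφ U z fun i hi => hx i ?_
      exact Finset.mem_filter.2 ⟨Finset.mem_univ _, by rw [hi]; exact hv⟩
    have hF'T : ∀ z z' : κ → 𝒰 → S, (∀ v ∈ T, z v = z' v) →
        av (fun x : I → S => W x * F (ov φ U z x)) = av fun x => W x * F (ov φ U z' x) := by
      intro z z' hz
      refine av_congr fun x => ?_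
      rw [hF _ _ fun v hv => ov_congr_left hφ U x (hz v hv)]
    have hF'0 : ∀ z : κ → 𝒰 → S, 0 ≤ av fun x : I → S => W x * F (ov φ U z x) := by
      intro z
      have h2 := (h (TT φ U T) (fun x => F (ov φ U z x)) hTU (hres z) (fun x => hF0 _)).1
      unfold av
      exact div_nonneg h2 (Nat.cast_nonneg _)
    rw [av_WW_insert hφ W hU F]
    obtain ⟨h3, h4⟩ := ih (fun z => av fun x : I → S => W x * F (ov φ U z x)) hF'T hF'0
    refine ⟨h3, fun h1 => h4 fun z hz => ?_⟩
    refine Loc.one_le W h (TT φ U T) (fun x => F (ov φ U z x)) hTU (hres z) (fun x => hF0 _) ?_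
    intro x hx
    refine h1 _ fun U' hU' => ?_
    by_cases hUU : U' = U
    · subst hUU
      rw [pr_ov_self hφ]
      exact hx
    · rw [pr_ov_other hUU]
      exact hz U' ((Finset.mem_insert.1 hU').resolve_left hUU)

end tensor

end Pool.Agent.Lib.SDF4
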